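import Pool.Agent.V119.SelfInv

set_option autoImplicit false
set_option linter.unusedSimpArgs false

namespace Pool.Agent.Results.MP_0f7e3c_al.NotIsotropic

open MvPowerSeries Pool.Agent.V119.SelfInv

/-- The linear form `h_α(z) = ⟨α, z⟩`. -/
noncomputable def linForm {n : ℕ} (α : Fin n → ℂ) : MvPowerSeries (Fin n) ℂ :=
  ∑ i, C (α i) * X i

/-- `𝒜_Ξ`: the completion (closure in the `(z)`-adic topology) of the subalgebra generated by the
linear forms `h_α`, `α ∈ Ξ`. -/
def calA {n : ℕ} (Ξ : Set (Fin n → ℂ)) : Set (MvPowerSeries (Fin n) ℂ) :=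
  {f | ∀ N : ℕ, ∃ g ∈ Algebra.adjoin ℂ (linForm '' Ξ), (N : ℕ∞) ≤ (f - g).order}

/-- `⟨α, β⟩ = 0` for all `α, β ∈ Ξ`, including `α = β`. -/
def Isotropic {n : ℕ} (Ξ : Set (Fin n → ℂ)) : Prop :=
  ∀ α ∈ Ξ, ∀ β ∈ Ξ, ∑ i, α i * β i = 0

section General

variable {n : ℕ}

/-- the vector of the coefficients of `z^m` in the gradient -/
noncomputable def G (m : Fin n →₀ ℕ) (f : MvPowerSeries (Fin n) ℂ) : Fin n → ℂ :=
  fun i => coeff m (pderiv ℂ i f)

lemma pd_mul (j : Fin n) (f g : MvPowerSeries (Fin n) ℂ) :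
    pderiv ℂ j (f * g) = f * pderiv ℂ j g + g * pderiv ℂ j f := by
  rw [Derivation.leibniz, smul_eq_mul, smul_eq_mul]

lemma G_adjoin (Ξ : Set (Fin n → ℂ)) (g : MvPowerSeries (Fin n) ℂ)
    (hg : g ∈ Algebra.adjoin ℂ (linForm '' Ξ)) (m : Fin n →₀ ℕ) :
    G m g ∈ Submodule.span ℂ Ξ := by
  induction hg using Algebra.adjoin_induction generalizing m with
  | mem x hx =>
    obtain ⟨α, hα, rfl⟩ := hx
    have h1 : ∀ i, pderiv ℂ i (linForm α) = C (α i) := by
      intro i
      unfold linForm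
      rw [map_sum, Finset.sum_eq_single i]
      · rw [pd_mul, pderiv_X_self, pderiv_C]
        simp
      · intro b _ hb
        rw [pd_mul, pderiv_X_of_ne hb, pderiv_C]
        simp
      · simp
    have h2 : G m (linForm α) = (if m = 0 then (1 : ℂ) else 0) • α := by
      funext i
      unfold G
      rw [h1, Pi.smul_apply, coeff_C]
      split_ifs <;> simp
    rw [h2]
    exact Submodule.smul_mem _ _ (Submodule.subset_span hα)
  | algebraMap r =>
    have h2 : G m (algebraMap ℂ (MvPowerSeries (Fin n) ℂ) r) = 0 := by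
      funext i
      unfold G
      rw [Derivation.map_algebraMap]
      simp
    rw [h2]
    exact Submodule.zero_mem _
  | add x y _ _ hx hy =>
    have h2 : G m (x + y) = G m x + G m y := by
      funext i
      simp [G]
    rw [h2]
    exact Submodule.add_mem _ (hx m) (hy m)
  | mul x y _ _ hx hy =>
    classical
    have h2 : G m (x * y) =
        (∑ p ∈ Finset.HasAntidiagonal.antidiagonal m, coeff p.1 x • G p.2 y) +
        ∑ p ∈ Finset.HasAntidiagonal.antidiagonal m, coeff p.1 y • G p.2 x := by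
      funext i
      unfold G
      rw [pd_mul, map_add, coeff_mul, coeff_mul]
      simp
    rw [h2]
    exact Submodule.add_mem _ (Submodule.sum_mem _ fun p _ => Submodule.smul_mem _ _ (hy p.2))
      (Submodule.sum_mem _ fun p _ => Submodule.smul_mem _ _ (hx p.2))

lemma G_calA (Ξ : Set (Fin n → ℂ)) (f : MvPowerSeries (Fin n) ℂ)
    (hf : f ∈ calA Ξ) (m : Fin n →₀ ℕ) :
    G m f ∈ Submodule.span ℂ Ξ := by
  obtain ⟨g, hg, ho⟩ := hf (m.degree + 2)
  have h1 : G m f = G m g := by
    funext i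
    unfold G
    have h2 : coeff m (pderiv ℂ i (f - g)) = 0 := by
      rw [coeff_pderiv, coeff_of_lt_order, zero_mul]
      refine lt_of_lt_of_le ?_ ho
      rw [map_add, Finsupp.degree_single]
      exact_mod_cast Nat.lt_succ_self _
    rw [map_sub, map_sub, sub_eq_zero] at h2
    exact h2
  rw [h1]
  exact G_adjoin Ξ g hg m

lemma span_isotropic (Ξ : Set (Fin n → ℂ)) (h : Isotropic Ξ) (u v : Fin n → ℂ)
    (hu : u ∈ Submodule.span ℂ Ξ) (hv : v ∈ Submodule.span ℂ Ξ) : ∑ i, u i * v i = 0 := by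
  induction hu using Submodule.span_induction with
  | mem x hx =>
    induction hv using Submodule.span_induction with
    | mem y hy => exact h x hx y hy
    | zero => simp
    | add y z _ _ hy hz =>
      simp only [Pi.add_apply, mul_add, Finset.sum_add_distrib, hy, hz, add_zero]
    | smul r y _ hy =>
      have : ∑ i, x i * (r • y) i = r * ∑ i, x i * y i := by
        rw [Finset.mul_sum]
        refine Finset.sum_congr rfl fun i _ => ?_
        rw [Pi.smul_apply, smul_eq_mul]
        ring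
      rw [this, hy, mul_zero]
  | zero => simp
  | add y z _ _ hy hz =>
    simp only [Pi.add_apply, add_mul, Finset.sum_add_distrib, hy, hz, add_zero]
  | smul r y _ hy =>
    have : ∑ i, (r • y) i * v i = r * ∑ i, y i * v i := by
      rw [Finset.mul_sum]
      refine Finset.sum_congr rfl fun i _ => ?_
      rw [Pi.smul_apply, smul_eq_mul]
      ring
    rw [this, hy, mul_zero]

end General

section Example

/-- The polynomial `(a x + b y) (b p - a q)` with `x, p = z_1 ± i z_2`, `y, q = z_3 ± i z_4`,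
`a = z_5 + i z_6`, `b = z_7 + i z_8`. -/
noncomputable def Q : MvPolynomial (Fin 8) ℂ :=
  ((MvPolynomial.X 4 + MvPolynomial.C Complex.I * MvPolynomial.X 5) *
      (MvPolynomial.X 0 + MvPolynomial.C Complex.I * MvPolynomial.X 1) +
    (MvPolynomial.X 6 + MvPolynomial.C Complex.I * MvPolynomial.X 7) *
      (MvPolynomial.X 2 + MvPolynomial.C Complex.I * MvPolynomial.X 3)) *
  ((MvPolynomial.X 6 + MvPolynomial.C Complex.I * MvPolynomial.X 7) *
      (MvPolynomial.X 0 - MvPolynomial.C Complex.I * MvPolynomial.X 1) -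
    (MvPolynomial.X 4 + MvPolynomial.C Complex.I * MvPolynomial.X 5) *
      (MvPolynomial.X 2 - MvPolynomial.C Complex.I * MvPolynomial.X 3))

abbrev T := MvPowerSeries (Fin 8) ℂ

/-- The constant power series `i`. -/
noncomputable def J : T := C Complex.I

lemma J_sq : J * J = -1 := by
  unfold J
  rw [← map_mul, Complex.I_mul_I, map_neg, map_one]

noncomputable def x : T := X 0 + J * X 1
noncomputable def p : T := X 0 - J * X 1
noncomputable def y : T := X 2 + J * X 3
noncomputable def q : T := X 2 - J * X 3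
noncomputable def a : T := X 4 + J * X 5
noncomputable def b : T := X 6 + J * X 7
noncomputable def r : T := a * x + b * y
noncomputable def t : T := b * p - a * q
noncomputable def P : T := r * t

lemma Q_coe : (Q : T) = P := by
  unfold Q P r t a b x y p q J
  have hsub : ∀ f g : MvPolynomial (Fin 8) ℂ,
      ((f - g : MvPolynomial (Fin 8) ℂ) : T) = (f : T) - (g : T) := fun f g =>
    map_sub MvPolynomial.coeToMvPowerSeries.ringHom f g
  simp only [MvPolynomial.coe_mul, MvPolynomial.coe_add, MvPolynomial.coe_X, MvPolynomial.coe_C,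
    hsub]

lemma pd_J (j : Fin 8) : pderiv ℂ j J = 0 := pderiv_C

/-- partial derivatives of the coordinate `z_i` -/
noncomputable def δ (i j : Fin 8) : T := if j = i then 1 else 0

lemma pd_X (i j : Fin 8) : pderiv ℂ j (X i) = δ i j := by
  unfold δ
  split_ifs with h
  · rw [h, pderiv_X_self]
  · rw [pderiv_X_of_ne (Ne.symm h)]

lemma pd_x (j : Fin 8) : pderiv ℂ j x = δ 0 j + J * δ 1 j := by
  unfold x; rw [map_add, pd_mul, pd_J, pd_X, pd_X]; ring
lemma pd_p (j : Fin 8) : pderiv ℂ j p = δ 0 j - J * δ 1 j := by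
  unfold p; rw [map_sub, pd_mul, pd_J, pd_X, pd_X]; ring
lemma pd_y (j : Fin 8) : pderiv ℂ j y = δ 2 j + J * δ 3 j := by
  unfold y; rw [map_add, pd_mul, pd_J, pd_X, pd_X]; ring
lemma pd_q (j : Fin 8) : pderiv ℂ j q = δ 2 j - J * δ 3 j := by
  unfold q; rw [map_sub, pd_mul, pd_J, pd_X, pd_X]; ring
lemma pd_a (j : Fin 8) : pderiv ℂ j a = δ 4 j + J * δ 5 j := by
  unfold a; rw [map_add, pd_mul, pd_J, pd_X, pd_X]; ring
lemma pd_b (j : Fin 8) : pderiv ℂ j b = δ 6 j + J * δ 7 j := by
  unfold b; rw [map_add, pd_mul, pd_J, pd_X, pd_X]; ring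

lemma pd_r (j : Fin 8) : pderiv ℂ j r =
    a * (δ 0 j + J * δ 1 j) + x * (δ 4 j + J * δ 5 j) +
    (b * (δ 2 j + J * δ 3 j) + y * (δ 6 j + J * δ 7 j)) := by
  unfold r; rw [map_add, pd_mul, pd_mul, pd_a, pd_b, pd_x, pd_y]

lemma pd_t (j : Fin 8) : pderiv ℂ j t =
    b * (δ 0 j - J * δ 1 j) + p * (δ 6 j + J * δ 7 j) -
    (a * (δ 2 j - J * δ 3 j) + q * (δ 4 j + J * δ 5 j)) := by
  unfold t; rw [map_sub, pd_mul, pd_mul, pd_a, pd_b, pd_p, pd_q]

/-- the gradient of `P` -/
noncomputable def N (j : Fin 8) : T :=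
  (a * t) * (δ 0 j + J * δ 1 j) + (b * r) * (δ 0 j - J * δ 1 j) +
  (b * t) * (δ 2 j + J * δ 3 j) - (a * r) * (δ 2 j - J * δ 3 j) +
  (t * x - r * q) * (δ 4 j + J * δ 5 j) + (t * y + r * p) * (δ 6 j + J * δ 7 j)

lemma pd_P (j : Fin 8) : pderiv ℂ j P = N j := by
  unfold P N; rw [pd_mul, pd_r, pd_t]; ring

lemma N0 : N 0 = a * t + b * r := by simp [N, δ]
lemma N1 : N 1 = J * (a * t - b * r) := by simp [N, δ]; ring
lemma N2 : N 2 = b * t - a * r := by simp [N, δ]
lemma N3 : N 3 = J * (b * t + a * r) := by simp [N, δ]; ring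
lemma N4 : N 4 = t * x - r * q := by simp [N, δ]
lemma N5 : N 5 = J * (t * x - r * q) := by simp [N, δ]; ring
lemma N6 : N 6 = t * y + r * p := by simp [N, δ]
lemma N7 : N 7 = J * (t * y + r * p) := by simp [N, δ]; ring

lemma order_P : 4 ≤ P.order := by
  have h1 : ∀ f : T, constantCoeff f = 0 → 1 ≤ f.order := fun f hf =>
    one_le_order_iff_constCoeff_eq_zero.mpr hf
  have ha : 1 ≤ a.order := h1 _ (by simp [a])
  have hb : 1 ≤ b.order := h1 _ (by simp [b])
  have hx : 1 ≤ x.order := h1 _ (by simp [x])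
  have hy : 1 ≤ y.order := h1 _ (by simp [y])
  have hp : 1 ≤ p.order := h1 _ (by simp [p])
  have hq : 1 ≤ q.order := h1 _ (by simp [q])
  have h2 : ∀ f g : T, 1 ≤ f.order → 1 ≤ g.order → 2 ≤ (f * g).order := fun f g hf hg =>
    le_trans (by rw [← one_add_one_eq_two]; exact add_le_add hf hg) le_order_mul
  have hr : 2 ≤ r.order := by
    unfold r
    exact le_trans (le_min (h2 _ _ ha hx) (h2 _ _ hb hy)) min_order_le_add
  have ht : 2 ≤ t.order := by
    unfold t
    rw [sub_eq_add_neg]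
    refine le_trans (le_min (h2 _ _ hb hp) ?_) min_order_le_add
    rw [order_neg]
    exact h2 _ _ ha hq
  unfold P
  refine le_trans ?_ le_order_mul
  calc (4 : ℕ∞) = 2 + 2 := by norm_num
    _ ≤ _ := add_le_add hr ht

lemma coeff_P_eq_zero (m : Fin 8 →₀ ℕ) (h : m.degree < 4) : coeff m P = 0 := by
  apply coeff_of_lt_order
  exact lt_of_lt_of_le (by exact_mod_cast h) order_P

lemma cc_N (j : Fin 8) : constantCoeff (N j) = 0 := by
  rw [← pd_P, ← coeff_zero_eq_constantCoeff_apply, coeff_pderiv, coeff_P_eq_zero, zero_mul]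
  simp

lemma invariance (s : ℂ) (i : Fin 8) :
    subst (fun j => X j - C s * pderiv ℂ j P) (X i + C s * pderiv ℂ i P) = (X i : T) := by
  have hF : HasSubst (fun j => X j - C s * pderiv ℂ j P) := by
    apply hasSubst_of_constantCoeff_zero
    intro j
    rw [pd_P]
    simp [cc_N]
  rw [← coe_substAlgHom hF]
  set φ : T →ₐ[ℂ] T := substAlgHom hF with hφ
  have hX : ∀ j, φ (X j) = X j - C s * N j := by
    intro j
    rw [hφ, substAlgHom_X, pd_P]
  have hC : ∀ r : ℂ, φ (C r) = C r := fun r => by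
    have := φ.commutes r
    rwa [show (algebraMap ℂ T) r = C r from rfl] at this
  have hJ : φ J = J := hC _
  have j2 := J_sq
  have hx : φ x = x - C s * (2 * b * r) := by
    unfold x
    rw [map_add, map_mul, hJ, hX, hX, N0, N1]
    linear_combination (-(C s * (a * t - b * r))) * j2
  have hp : φ p = p - C s * (2 * a * t) := by
    unfold p
    rw [map_sub, map_mul, hJ, hX, hX, N0, N1]
    linear_combination ((C s * (a * t - b * r))) * j2
  have hy : φ y = y + C s * (2 * a * r) := by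
    unfold y
    rw [map_add, map_mul, hJ, hX, hX, N2, N3]
    linear_combination (-(C s * (b * t + a * r))) * j2
  have hq : φ q = q - C s * (2 * b * t) := by
    unfold q
    rw [map_sub, map_mul, hJ, hX, hX, N2, N3]
    linear_combination ((C s * (b * t + a * r))) * j2
  have ha : φ a = a := by
    unfold a
    rw [map_add, map_mul, hJ, hX, hX, N4, N5]
    linear_combination (-(C s * (t * x - r * q))) * j2
  have hb : φ b = b := by
    unfold b
    rw [map_add, map_mul, hJ, hX, hX, N6, N7]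
    linear_combination (-(C s * (t * y + r * p))) * j2
  have hr : φ r = r := by
    have h1 : φ r = φ a * φ x + φ b * φ y := by
      unfold r
      rw [map_add, map_mul, map_mul]
    rw [h1, ha, hb, hx, hy]
    have h2 : r = a * x + b * y := rfl
    linear_combination -h2
  have ht : φ t = t := by
    have h1 : φ t = φ b * φ p - φ a * φ q := by
      unfold t
      rw [map_sub, map_mul, map_mul]
    rw [h1, ha, hb, hp, hq]
    have h2 : t = b * p - a * q := rfl
    linear_combination -h2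
  have hδ : ∀ i j : Fin 8, φ (δ i j) = δ i j := by
    intro i j
    unfold δ
    split_ifs
    · exact map_one _
    · exact map_zero _
  have hN : ∀ j, φ (N j) = N j := by
    intro j
    unfold N
    simp only [map_sub, map_add, map_mul, hδ, hJ, ha, hb, hr, ht, hx, hy, hp, hq]
    ring
  rw [map_add, map_mul, hC, hX, pd_P, hN]
  ring

lemma selfInverting : SelfInverting P := by
  have ho : 2 ≤ P.order := le_trans (by norm_num) order_P
  refine ⟨ho, ⟨1, ?_⟩, ho, ?_, ?_⟩
  · rw [pow_one]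
    apply Matrix.ext
    intro i j
    simp only [hessianAtZero, Matrix.of_apply, Matrix.zero_apply]
    rw [← coeff_zero_eq_constantCoeff_apply, coeff_pderiv, coeff_pderiv, coeff_P_eq_zero]
    · simp
    · simp [Finsupp.degree_single]
  · intro i
    have h := invariance 1 i
    simpa only [map_one, one_mul] using h
  · intro i
    have h := invariance (-1) i
    simpa only [map_neg, map_one, neg_mul, one_mul, sub_neg_eq_add, ← sub_eq_add_neg] using h

/-- the monomial `z_7 z_5 z_3` -/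
noncomputable def m : Fin 8 →₀ ℕ := Finsupp.single 6 1 + Finsupp.single 4 1 + Finsupp.single 2 1

lemma G_m (f : T) (i : Fin 8) :
    G m f i = constantCoeff (pderiv ℂ 6 (pderiv ℂ 4 (pderiv ℂ 2 (pderiv ℂ i f)))) := by
  rw [← coeff_zero_eq_constantCoeff_apply, coeff_pderiv, coeff_pderiv, coeff_pderiv]
  unfold G m
  simp

lemma cc_a : constantCoeff a = 0 := by simp [a]
lemma cc_b : constantCoeff b = 0 := by simp [b]

lemma G_vals (i : Fin 8) : G m P i = if i = 2 then -2 else 0 := by
  rw [G_m, pd_P]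
  fin_cases i
  · simp [N0, pd_a, pd_b, pd_r, pd_t, δ]
  · simp [N1, pd_a, pd_b, pd_r, pd_t, pd_J, δ]
  · simp [N2, pd_a, pd_b, pd_r, pd_t, δ, cc_a, cc_b]
    norm_num
  · simp [N3, pd_a, pd_b, pd_r, pd_t, pd_J, δ]
  · simp [N4, pd_a, pd_b, pd_r, pd_t, pd_x, pd_y, pd_p, pd_q, δ, cc_a, cc_b]
  · simp [N5, pd_a, pd_b, pd_r, pd_t, pd_J, pd_x, pd_y, pd_p, pd_q, δ, cc_a, cc_b]
  · simp [N6, pd_a, pd_b, pd_r, pd_t, pd_x, pd_y, pd_p, pd_q, δ, cc_a, cc_b]
  · simp [N7, pd_a, pd_b, pd_r, pd_t, pd_J, pd_x, pd_y, pd_p, pd_q, δ, cc_a, cc_b]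

end Example

/-- **There is a Hessian nilpotent self-inverting polynomial (homogeneous of degree `4` in `8`
variables) which lies in no `𝒜_Ξ`, `Ξ` nonempty and isotropic.** -/
theorem result :
    ∃ Q : MvPolynomial (Fin 8) ℂ,
      2 ≤ (Q : MvPowerSeries (Fin 8) ℂ).order ∧
      HN (Q : MvPowerSeries (Fin 8) ℂ) ∧ SelfInverting (Q : MvPowerSeries (Fin 8) ℂ) ∧
      ∀ Ξ : Set (Fin 8 → ℂ), Ξ.Nonempty → Isotropic Ξ →
        (Q : MvPowerSeries (Fin 8) ℂ) ∉ calA Ξ := by
  have hs : SelfInverting (Q : MvPowerSeries (Fin 8) ℂ) := by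
    rw [Q_coe]
    exact selfInverting
  refine ⟨Q, hs.1, polynomial_HN Q hs, hs, ?_⟩
  intro Ξ _ hΞ hQ
  rw [Q_coe] at hQ
  have h1 := G_calA Ξ P hQ m
  have h2 := span_isotropic Ξ hΞ _ _ h1 h1
  simp only [G_vals] at h2
  rw [Finset.sum_eq_single 2] at h2
  · norm_num at h2
  · intro b _ hb
    simp [hb]
  · simp

end Pool.Agent.Results.MP_0f7e3c_al.NotIsotropic
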